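import Pool.Agent.J6H6.DF.Inv

/-!
# MP_c13a79_gt: positive forms over the integral group ring of a torsion-free group

`G` is a torsion-free group (for example a Poincare duality group), `R = ℤG` with the involution
`g ↦ g⁻¹`. A hermitian form on `R ^ n` with invertible hermitian matrix `A` is positive if the coefficient
of `1` of `x A x*` is positive for all `x ≠ 0`. It is extended if `S A S*` has integer entries for some
`S` in `GL_n(R)`. We give a criterion in terms of the integral lattice `R ^ n` (of infinite rank if `G`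
is infinite), and show that the form is extended if `R ^ n` is generated, as an abelian group, by
vectors of norm at most `2`.
-/

set_option autoImplicit false

namespace Pool.Agent.Results.MP_c13a79_gt.DefiniteForms

open Pool.Agent.J6H6.DF (bar herm adj ext aug augm)

/-- `G` is torsion-free. -/
def TorsionFree (G : Type) [Group G] : Prop := ∀ (g : G) (k : ℕ), 1 ≤ k → g ^ k = 1 → g = 1

section defs

variable {G : Type} [Group G] {n : ℕ}

/-- The inner product: the coefficient of `1` of `x A y*`. -/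
noncomputable def inner (A : Matrix (Fin n) (Fin n) (MonoidAlgebra ℤ G))
    (x y : Fin n → MonoidAlgebra ℤ G) : ℤ := (herm A x y).coeff 1

/-- The norm of a vector: its inner product with itself. -/
noncomputable def norm (A : Matrix (Fin n) (Fin n) (MonoidAlgebra ℤ G))
    (x : Fin n → MonoidAlgebra ℤ G) : ℤ := inner A x x

/-- The matrix of a positive nonsingular hermitian form. -/
structure PositiveForm (A : Matrix (Fin n) (Fin n) (MonoidAlgebra ℤ G)) : Prop where
  hermitian : adj A = A
  nonsingular : IsUnit A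
  positive : ∀ x, x ≠ 0 → 0 < norm A x

/-- The form is isometric to a form with integer coefficients. -/
def Extended (A : Matrix (Fin n) (Fin n) (MonoidAlgebra ℤ G)) : Prop :=
  ∃ (S : (Matrix (Fin n) (Fin n) (MonoidAlgebra ℤ G))ˣ) (A₀ : Matrix (Fin n) (Fin n) ℤ),
    S.1 * A * adj S.1 = ext A₀

/-- The abelian group `R ^ n` is generated by the vectors of norm at most `N`. -/
def GeneratedByNorm (N : ℤ) (A : Matrix (Fin n) (Fin n) (MonoidAlgebra ℤ G)) : Prop :=
  AddSubgroup.closure {x | norm A x ≤ N} = ⊤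

/-- The norm of every nonzero vector is less than `c` times the sum of the squares of its
coefficients. -/
def Below (c : ℤ) (A : Matrix (Fin n) (Fin n) (MonoidAlgebra ℤ G)) : Prop :=
  ∀ x, x ≠ 0 → norm A x < c * norm 1 x

/-- `x` is nonzero and not the sum of two nonzero vectors with inner product at least `0`. -/
def Irreducible (A : Matrix (Fin n) (Fin n) (MonoidAlgebra ℤ G))
    (x : Fin n → MonoidAlgebra ℤ G) : Prop :=
  x ≠ 0 ∧ ∀ y z, y + z = x → 0 ≤ inner A y z → y = 0 ∨ z = 0

/-- The vectors which can be reached from `a` through irreducible vectors of norm at most `N`,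
consecutive ones being not orthogonal. -/
def cluster (A : Matrix (Fin n) (Fin n) (MonoidAlgebra ℤ G)) (N : ℤ)
    (a : Fin n → MonoidAlgebra ℤ G) : Set (Fin n → MonoidAlgebra ℤ G) :=
  {x | Relation.ReflTransGen
    (fun y z => (Irreducible A z ∧ norm A z ≤ N) ∧ inner A y z ≠ 0) a x}

end defs

/-- The lattice of `A` is isomorphic to an orthogonal summand of the lattice of `A'`: there is an
additive map which preserves norms, and whose image is an orthogonal summand. -/
def IsSummand {G G' : Type} [Group G] [Group G'] {n n' : ℕ}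
    (A : Matrix (Fin n) (Fin n) (MonoidAlgebra ℤ G))
    (A' : Matrix (Fin n') (Fin n') (MonoidAlgebra ℤ G')) : Prop :=
  ∃ φ : (Fin n → MonoidAlgebra ℤ G) →+ (Fin n' → MonoidAlgebra ℤ G'),
    (∀ x, norm A' (φ x) = norm A x) ∧ ∀ v, ∃ x, ∀ y, inner A' (v - φ x) (φ y) = 0

section proofs

variable {G : Type} [Group G] {n : ℕ}

theorem diag_of_below {c : ℤ} {A : Matrix (Fin n) (Fin n) (MonoidAlgebra ℤ G)} (hA : adj A = A)
    (h : Below c A) (i : Fin n) : (A i i).coeff 1 < c := by
  classical
  have key : ∀ A : Matrix (Fin n) (Fin n) (MonoidAlgebra ℤ G),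
      adj A = A → norm A (Pool.Agent.J6H6.DF.bas (1, i)) = (A i i).coeff 1 := by
    intro A hA
    obtain ⟨B, hB1, -, -, -, hB5⟩ := Pool.Agent.J6H6.DF.t_FORM G n A
      (fun i j => congrFun (congrFun hA j) i)
    unfold norm inner
    rw [← hB1, hB5, inv_mul_cancel]
  have h1 : (Pool.Agent.J6H6.DF.bas ((1 : G), i) : Fin n → MonoidAlgebra ℤ G) ≠ 0 := by
    intro h0
    have h2 := congrArg (fun x : MonoidAlgebra ℤ G => x.coeff 1) (congrFun h0 i)
    simp only [Pool.Agent.J6H6.DF.bas, Pi.single_eq_same, Pi.zero_apply] at h2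
    rw [MonoidAlgebra.coeff_single, Finsupp.single_eq_same, MonoidAlgebra.coeff_zero,
      Finsupp.zero_apply] at h2
    exact one_ne_zero h2
  have h2 := h _ h1
  have h3 : adj (1 : Matrix (Fin n) (Fin n) (MonoidAlgebra ℤ G)) = 1 := by
    rw [← Pool.Agent.J6H6.DF.ext_one, Pool.Agent.J6H6.DF.adj_ext, Matrix.transpose_one]
  rw [key A hA, key 1 h3, Matrix.one_apply_eq, MonoidAlgebra.one_def, MonoidAlgebra.coeff_single,
    Finsupp.single_eq_same, mul_one] at h2
  exact h2

theorem irr_iff {A : Matrix (Fin n) (Fin n) (MonoidAlgebra ℤ G)}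
    {B : (Fin n → MonoidAlgebra ℤ G) →+ (Fin n → MonoidAlgebra ℤ G) →+ ℤ}
    (hB : ∀ x y, B x y = (herm A x y).coeff 1) (x : Fin n → MonoidAlgebra ℤ G) :
    Pool.Agent.J6H6.DF.Irr B x ↔ Irreducible A x := by
  unfold Pool.Agent.J6H6.DF.Irr Irreducible inner
  simp only [hB]

theorem cluster_eq {A : Matrix (Fin n) (Fin n) (MonoidAlgebra ℤ G)}
    {B : (Fin n → MonoidAlgebra ℤ G) →+ (Fin n → MonoidAlgebra ℤ G) →+ ℤ}
    (hB : ∀ x y, B x y = (herm A x y).coeff 1) (N : ℤ) (a : Fin n → MonoidAlgebra ℤ G) :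
    Pool.Agent.J6H6.DF.CompN B N a = cluster A N a := by
  unfold Pool.Agent.J6H6.DF.CompN cluster
  have h : (fun y z => z ∈ Pool.Agent.J6H6.DF.ShortN B N ∧ B y z ≠ 0) =
      (fun y z => (Irreducible A z ∧ norm A z ≤ N) ∧ inner A y z ≠ 0) := by
    funext y z
    have h1 : (z ∈ Pool.Agent.J6H6.DF.ShortN B N) = (Irreducible A z ∧ norm A z ≤ N) := by
      refine propext ⟨fun h => ⟨(irr_iff hB z).mp h.1, ?_⟩, fun h => ⟨(irr_iff hB z).mpr h.1, ?_⟩⟩
      · have := h.2; rw [hB] at this; exact this
      · rw [hB]; exact h.2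
    rw [h1, hB]
    rfl
  rw [h]

theorem criterion (tf : TorsionFree G) {A : Matrix (Fin n) (Fin n) (MonoidAlgebra ℤ G)}
    (hA : PositiveForm A) (N : ℤ) (hg : GeneratedByNorm N A) :
    Extended A ↔ ∀ a, Irreducible A a → norm A a ≤ N → (cluster A N a).Finite := by
  obtain ⟨B, hB1, -⟩ := Pool.Agent.J6H6.DF.t_FORM G n A
    (fun i j => congrFun (congrFun hA.hermitian j) i)
  refine (Pool.Agent.J6H6.DF.fin_comp tf A hA.hermitian hA.nonsingular hA.positive N hg B
    hB1).trans ⟨fun h a h1 h2 => ?_, fun h a ha => ?_⟩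
  · rw [← cluster_eq hB1]
    exact h a ⟨(irr_iff hB1 a).mpr h1, by rw [hB1]; exact h2⟩
  · rw [cluster_eq hB1]
    refine h a ((irr_iff hB1 a).mp ha.1) ?_
    have := ha.2
    rw [hB1] at this
    exact this

end proofs

/-- Positive nonsingular hermitian forms over the group ring of a torsion-free group. -/
theorem result (G : Type) [Group G] (tf : TorsionFree G) (n : ℕ)
    (A : Matrix (Fin n) (Fin n) (MonoidAlgebra ℤ G)) (hA : PositiveForm A) :
    -- (1) extended forms are congruent to their augmentation, with all quadratic refinements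
    (Extended A → ∃ S : (Matrix (Fin n) (Fin n) (MonoidAlgebra ℤ G))ˣ,
      S.1 * A * adj S.1 = ext (augm A) ∧
      ∀ Q, Q + adj Q = A → ∃ P, S.1 * Q * adj S.1 = ext (augm Q) + (P - adj P)) ∧
    -- (2) the criterion
    (∀ N, GeneratedByNorm N A →
      (Extended A ↔ ∀ a, Irreducible A a → norm A a ≤ N → (cluster A N a).Finite)) ∧
    -- (3) forms generated by vectors of norm at most two
    (GeneratedByNorm 2 A → Extended A) ∧
    -- (4) generation
    (∀ N, (∀ i, (A i i).coeff 1 ≤ N) → GeneratedByNorm N A) ∧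
    (Below 3 A → GeneratedByNorm 2 A) ∧
    ((∃ Q, Q + adj Q = A) → Below 4 A → GeneratedByNorm 2 A) ∧
    -- (5) summands, other groups
    ∀ (G' : Type) [Group G'], TorsionFree G' → ∀ (n' : ℕ)
      (A' : Matrix (Fin n') (Fin n') (MonoidAlgebra ℤ G')), PositiveForm A' →
      IsSummand A A' → Extended A' → Extended A := by
  have hd : ∀ N, (∀ i, (A i i).coeff 1 ≤ N) → GeneratedByNorm N A := fun N h =>
    Pool.Agent.J6H6.DF.gen_of_diagN A hA.hermitian N h
  refine ⟨?_, fun N hg => criterion tf hA N hg, fun hg => ?_, hd, fun h => hd 2 fun i => ?_,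
    fun hQ h => hd 2 fun i => ?_, ?_⟩
  · rintro ⟨S, A₀, hS⟩
    obtain ⟨T, hT⟩ := Pool.Agent.J6H6.DF.to_aug A S A₀ hS
    refine ⟨T, hT, fun Q hQ => ?_⟩
    subst hQ
    exact Pool.Agent.J6H6.DF.main_quad tf Q T hT
  · obtain ⟨S, hS⟩ := Pool.Agent.J6H6.DF.main_matrix tf A hA.hermitian hA.nonsingular hA.positive hg
    exact ⟨S, _, hS⟩
  · have h1 := diag_of_below hA.hermitian h i
    omega
  · obtain ⟨Q, rfl⟩ := hQ
    have h1 := diag_of_below hA.hermitian h i
    have h2 : ((Q + adj Q) i i).coeff 1 = 2 * (Q i i).coeff 1 := by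
      rw [Matrix.add_apply, MonoidAlgebra.coeff_add, Finsupp.add_apply]
      show (Q i i).coeff 1 + (bar (Q i i)).coeff 1 = _
      rw [Pool.Agent.J6H6.DF.coeff_bar, inv_one, two_mul]
    omega
  · intro G' _ tf' n' A' hA' hs he
    obtain ⟨φ, h1, h2⟩ := hs
    exact Pool.Agent.J6H6.DF.invariance tf A hA.hermitian hA.nonsingular hA.positive tf' A'
      hA'.hermitian hA'.nonsingular hA'.positive φ h1 h2 he

end Pool.Agent.Results.MP_c13a79_gt.DefiniteForms
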