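import Mathlib
import Pool.Agent.N510.LT.Near
import Pool.Agent.N510.CT.Dom

/-!
# Surgery obstructions of Poincaré duality groups: the distance to the hyperbolic form

Let `π` be a group without elements of order two (for instance a Poincaré duality group) and `w` an
orientation character. The elements of the surgery obstruction groups `L_{2k}(ℤπ, w)` are represented
by nonsingular `ε`-quadratic forms `ψ`, `ε = (-1)^k`, of even rank over the group ring with the
involution `g ↦ w(g) g⁻¹`. The distance of `ψ` from the hyperbolic form `H` of the same rank is the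
norm of `λ_ψ - λ_H` as an operator on `ℓ²(π)^(2n)`, where `λ_ψ = ψ + ε ψ*`.

Theorem (a zero-`√2` law). If the distance is less than `√2` then, after a permutation of the basis,
`ψ` is simply isometric (isometric by a matrix with vanishing Whitehead torsion) to a sum of planes
over `ℤ`: of hyperbolic planes if `ε = 1`, and of hyperbolic planes and of planes with
`q(x), q(y) ∈ {0, 1}`, `λ(x, y) = 1` if `ε = -1`; then the distance of this sum from `H` is zero, and
the surgery obstruction of `ψ` is in the image of `L_{2k}(ℤ)`, in particular zero if `ε = 1`. Every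
`ψ` is, after adding hyperbolic planes, simply isometric to a form the distance of which from the
hyperbolic form is at most `√2`, and the coefficients of the difference are `0`, `1` and `-1`.

So every element of `L_{2k}(ℤπ, w)` is at a distance zero or `√2` from the trivial one, and the
elements at distance zero are those which come from the trivial group.
-/

set_option autoImplicit false
set_option linter.unusedSectionVars false

namespace Pool.Agent.Results.MP_c13a79_gt.DistanceToHyperbolic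

open Matrix

section defs

variable {Γ : Type} [Group Γ]

/-- the adjoint of a matrix over `ℤΓ`, for the involution `∑ r_g g ↦ ∑ w(g) r_g g⁻¹` -/
noncomputable def adjoint (w : Γ →* ℤˣ) {κ μ : Type} (A : Matrix κ μ (MonoidAlgebra ℤ Γ)) :
    Matrix μ κ (MonoidAlgebra ℤ Γ) :=
  Matrix.of fun j i =>
    ∑ g ∈ (A i j).coeff.support, MonoidAlgebra.single g⁻¹ ((w g : ℤ) * (A i j).coeff g)

/-- the `ε`-symmetric form `λ = ψ + εψ*` of the `ε`-quadratic form `ψ` -/
noncomputable def symmetrization (w : Γ →* ℤˣ) {κ : Type} (ε : ℤ)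
    (ψ : Matrix κ κ (MonoidAlgebra ℤ Γ)) : Matrix κ κ (MonoidAlgebra ℤ Γ) :=
  ψ + ε • adjoint w ψ

/-- the squared `ℓ²`-norm of a finitely supported vector in `ℓ²(Γ)^κ` -/
noncomputable def normSq {κ : Type} [Fintype κ] (x : κ → MonoidAlgebra ℝ Γ) : ℝ :=
  ∑ i, ∑ g ∈ (x i).coeff.support, (x i).coeff g ^ 2

/-- The operator norm of `B`, acting on the row vectors in `ℓ²(Γ)^κ`, is at most `|c|`. -/
def NormLE {κ μ : Type} [Fintype κ] [Fintype μ] (B : Matrix κ μ (MonoidAlgebra ℤ Γ)) (c : ℝ) :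
    Prop := ∀ x : κ → MonoidAlgebra ℝ Γ,
      normSq (x ᵥ* B.map (MonoidAlgebra.mapRingHom Γ (Int.castRingHom ℝ))) ≤ c ^ 2 * normSq x

/-- The Whitehead torsion of `E` vanishes: after adding an identity matrix, `E` is a product of
commutators and of diagonal matrices with one entry `± g`, `g ∈ Γ`, and all other entries `1`. -/
def Simple {κ : Type} [Fintype κ] [DecidableEq κ] (E : (Matrix κ κ (MonoidAlgebra ℤ Γ))ˣ) : Prop :=
  ∃ (μ : Type) (_ : Fintype μ) (_ : DecidableEq μ)
    (x : (Matrix (κ ⊕ μ) (κ ⊕ μ) (MonoidAlgebra ℤ Γ))ˣ), x.val = fromBlocks E.val 0 0 1 ∧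
    x ∈ commutator (Matrix (κ ⊕ μ) (κ ⊕ μ) (MonoidAlgebra ℤ Γ))ˣ ⊔ Subgroup.closure
      {y | ∃ (i : κ ⊕ μ) (g : Γ) (s : ℤˣ), y.val =
        diagonal fun j => if j = i then MonoidAlgebra.single g (s : ℤ) else 1}

/-- simple isometry of `ε`-quadratic forms (matrices modulo the matrices `χ - εχ*`) -/
def SimplyIsometric (w : Γ →* ℤˣ) {κ : Type} [Fintype κ] [DecidableEq κ] (ε : ℤ)
    (ψ ψ' : Matrix κ κ (MonoidAlgebra ℤ Γ)) : Prop :=
  ∃ (E : (Matrix κ κ (MonoidAlgebra ℤ Γ))ˣ) (χ : Matrix κ κ (MonoidAlgebra ℤ Γ)),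
    Simple E ∧ E.val * ψ * adjoint w E.val = ψ' + (χ - ε • adjoint w χ)

/-- The sum of the planes with `q(x) = a k`, `q(y) = b k` and `λ(x, y) = 1`, defined over `ℤ`. -/
noncomputable def planes (Γ : Type) [Group Γ] {μ : Type} [DecidableEq μ] (a b : μ → ℤ) :
    Matrix (μ ⊕ μ) (μ ⊕ μ) (MonoidAlgebra ℤ Γ) :=
  fromBlocks (diagonal fun k => MonoidAlgebra.single 1 (a k)) 1 0
    (diagonal fun k => MonoidAlgebra.single 1 (b k))

/-- the sum of hyperbolic planes, indexed by `μ` -/
noncomputable def hyperbolic (Γ : Type) [Group Γ] (μ : Type) [DecidableEq μ] :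
    Matrix (μ ⊕ μ) (μ ⊕ μ) (MonoidAlgebra ℤ Γ) := planes Γ (fun _ => 0) (fun _ => 0)

/-- the sum of `ψ` and of `m` hyperbolic planes -/
noncomputable def stabilization {κ : Type} (m : ℕ) (ψ : Matrix κ κ (MonoidAlgebra ℤ Γ)) :
    Matrix (κ ⊕ (Fin m ⊕ Fin m)) (κ ⊕ (Fin m ⊕ Fin m)) (MonoidAlgebra ℤ Γ) :=
  fromBlocks ψ 0 0 (hyperbolic Γ (Fin m))

end defs

section aux

open TH57.Thr TH6.LF TH6.PF Pool.Agent.N510.LT

variable {Γ : Type} [Group Γ] {κ : Type} [Fintype κ] [DecidableEq κ] (w : Γ →* ℤˣ)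

theorem adjoint_eq {κ μ : Type} (A : Matrix κ μ (MonoidAlgebra ℤ Γ)) :
    adjoint w A = sadj w A := by
  ext1 j i
  change ∑ g ∈ (A i j).coeff.support, MonoidAlgebra.single g⁻¹ ((w g : ℤ) * ((A i j).coeff g))
    = sbar w (A i j)
  unfold sbar
  refine Finset.sum_congr rfl fun g _ => ?_
  rfl

theorem sym_eq {κ : Type} (ε : ℤ) (ψ : Matrix κ κ (MonoidAlgebra ℤ Γ)) :
    symmetrization w ε ψ = glam w ε ψ := by
  unfold symmetrization glam
  rw [adjoint_eq]

theorem hyperbolic_eq {μ : Type} [DecidableEq μ] :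
    hyperbolic Γ μ = TH6.LF.hyp (MonoidAlgebra ℤ Γ) μ := by
  ext1 x y
  rcases x with x | x <;> rcases y with y | y <;> simp [hyperbolic, planes, TH6.LF.hyp]

theorem stab_eq (m : ℕ) (ψ : Matrix κ κ (MonoidAlgebra ℤ Γ)) :
    stabilization m ψ = TH6.LF.addHyp (Fin m) ψ := by
  unfold stabilization
  rw [hyperbolic_eq]
  rfl

theorem simple_of {E : (Matrix κ κ (MonoidAlgebra ℤ Γ))ˣ} (h : TT (TU Γ) E) : Simple E := by
  obtain ⟨μ, h1, h2, h3⟩ := h
  refine ⟨μ, h1, h2, Units.map (stm μ) E, rfl, ?_⟩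
  have h4 : HH (TU Γ) (κ ⊕ μ) ≤ commutator (Matrix (κ ⊕ μ) (κ ⊕ μ) (MonoidAlgebra ℤ Γ))ˣ ⊔
      Subgroup.closure {y | ∃ (i : κ ⊕ μ) (g : Γ) (s : ℤˣ), y.val =
        diagonal fun j => if j = i then MonoidAlgebra.single g (s : ℤ) else 1} := by
    refine sup_le_sup le_rfl (Subgroup.closure_mono ?_)
    rintro x ⟨i, u, ⟨g, s, hu⟩, rfl⟩
    refine ⟨i, g, s, ?_⟩
    ext1 a b
    rw [← hu]
    change dgm i u.val a b = _
    rw [dgm_apply, diagonal_apply]
    by_cases hab : a = b
    · subst hab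
      by_cases hai : a = i
      · simp [hai]
      · simp [hai]
    · simp [hab]
  exact h4 h3

theorem iso_of {ε : ℤ} {ψ ψ' : Matrix κ κ (MonoidAlgebra ℤ Γ)}
    (h : GIso w (TU Γ) ε ψ ψ') : SimplyIsometric w ε ψ ψ' := by
  obtain ⟨E, χ, h1, h2⟩ := h
  refine ⟨E, χ, simple_of h1, ?_⟩
  rw [adjoint_eq, adjoint_eq]
  exact h2

end aux

open Pool.Agent.N510.LT in
/-- Let `Γ` be a group with an orientation character `w`, and `ε = ±1`. (1) Suppose that `Γ` has no
element of order two (for instance a Poincaré duality group). Each nonsingular `ε`-quadratic form `ψ`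
of even rank over `ℤΓ` such that `λ_ψ - λ_H` has operator norm less than `√2`, where `H` is the
hyperbolic form, is, after a permutation `e` of the basis, simply isometric to a sum of planes over
`ℤ` with `q(x), q(y) ∈ {0, 1}`, and to a hyperbolic form if `ε = 1`. (2) For such sums of planes
`λ = λ_H`. (3) For all `Γ` each `ε`-quadratic form of even rank over `ℤΓ` is, after adding hyperbolic
planes, simply isometric to a form `φ` such that `λ_φ - λ_H` has the coefficients `0`, `1`, `-1` and an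
operator norm of at most `√2`. -/
theorem result (Γ : Type) [Group Γ] (w : Γ →* ℤˣ) (ε : ℤ) (hε : ε = 1 ∨ ε = -1) :
    ((∀ g : Γ, g * g = 1 → g = 1) → ∀ c : ℝ, 0 ≤ c → c < Real.sqrt 2 →
      ∀ (κ : Type) [Fintype κ] [DecidableEq κ] (ψ : Matrix (κ ⊕ κ) (κ ⊕ κ) (MonoidAlgebra ℤ Γ)),
        IsUnit (symmetrization w ε ψ) →
        NormLE (symmetrization w ε ψ - symmetrization w ε (hyperbolic Γ κ)) c →
        ∃ (m : ℕ) (e : Fin m ⊕ Fin m ≃ κ ⊕ κ) (a b : Fin m → ℤ),
          (∀ k, (a k = 0 ∨ a k = 1) ∧ (b k = 0 ∨ b k = 1)) ∧ (ε = 1 → ∀ k, a k = 0 ∧ b k = 0) ∧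
          SimplyIsometric w ε (ψ.submatrix e e) (planes Γ a b)) ∧
    (∀ (m : ℕ) (a b : Fin m → ℤ), (ε = 1 → ∀ k, a k = 0 ∧ b k = 0) →
      symmetrization w ε (planes Γ a b) = symmetrization w ε (hyperbolic Γ (Fin m))) ∧
    ∀ (κ : Type) [Fintype κ] [DecidableEq κ] (ψ : Matrix (κ ⊕ κ) (κ ⊕ κ) (MonoidAlgebra ℤ Γ)),
      ∃ (m : ℕ) (φ : Matrix ((κ ⊕ κ) ⊕ (Fin m ⊕ Fin m)) ((κ ⊕ κ) ⊕ (Fin m ⊕ Fin m))
        (MonoidAlgebra ℤ Γ)),
        SimplyIsometric w ε (stabilization m ψ) φ ∧
        (∀ i j g, ((symmetrization w ε φ - symmetrization w ε (stabilization m (hyperbolic Γ κ)))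
          i j).coeff g ∈ ({0, 1, -1} : Set ℤ)) ∧
        NormLE (symmetrization w ε φ - symmetrization w ε (stabilization m (hyperbolic Γ κ)))
          (Real.sqrt 2) := by
  classical
  refine ⟨fun htf c hc0 hc κ _ _ ψ hu hN => ?_, fun m a b h => ?_, fun κ _ _ ψ => ?_⟩
  · have hc2 : c ^ 2 < 2 := by
      have h1 : c ^ 2 < Real.sqrt 2 ^ 2 := pow_lt_pow_left₀ hc hc0 two_ne_zero
      rwa [Real.sq_sqrt two_pos.le] at h1
    rw [sym_eq, sym_eq, hyperbolic_eq] at hN
    rw [sym_eq] at hu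
    obtain ⟨m, e, a, b, h1, h2, h3⟩ := int_near w htf hε hc2 ψ hu hN
    exact ⟨m, e, a, b, h1, h2, iso_of w h3⟩
  · rcases hε with rfl | rfl
    · have ha : a = fun _ => 0 := funext fun k => (h rfl k).1
      have hb : b = fun _ => 0 := funext fun k => (h rfl k).2
      rw [ha, hb]
      rfl
    · have key : ∀ z : ℤ, (MonoidAlgebra.single 1 z : MonoidAlgebra ℤ Γ)
          + (-1 : ℤ) • TH6.PF.sbar w (MonoidAlgebra.single 1 z) = 0 := by
        intro z
        have hw : ((w 1 : ℤˣ) : ℤ) = 1 := by rw [map_one, Units.val_one]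
        rw [TH6.PF.sbar_single, inv_one, hw, one_smul, neg_smul, one_smul]
        exact add_neg_cancel _
      rw [sym_eq, sym_eq]
      ext1 x y
      unfold glam
      rw [Matrix.add_apply, Matrix.add_apply, Matrix.smul_apply, Matrix.smul_apply,
        TH6.PF.sadj_apply, TH6.PF.sadj_apply]
      rcases x with x | x <;> rcases y with y | y
      · by_cases hxy : x = y
        · subst hxy
          have e1 := key (a x)
          simpa [hyperbolic, planes, TH6.PF.sbar_zero] using e1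
        · simp [hyperbolic, planes, hxy, Ne.symm hxy, TH6.PF.sbar_zero]
      · simp [hyperbolic, planes]
      · simp [hyperbolic, planes]
      · by_cases hxy : x = y
        · subst hxy
          have e1 := key (b x)
          simpa [hyperbolic, planes, TH6.PF.sbar_zero] using e1
        · simp [hyperbolic, planes, hxy, Ne.symm hxy, TH6.PF.sbar_zero]
  · obtain ⟨m, φ, h⟩ := int_dist w ψ
    obtain ⟨h1, h2, h3⟩ := h ε hε
    refine ⟨m, φ, ?_, ?_, ?_⟩
    · rw [stab_eq]
      exact iso_of w h1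
    · rw [stab_eq, hyperbolic_eq, sym_eq, sym_eq]
      intro i j g
      by_cases h0 : ((glam w ε φ - glam w ε (TH6.LF.addHyp (Fin m)
          (TH6.LF.hyp (MonoidAlgebra ℤ Γ) κ))) i j).coeff g = 0
      · exact Or.inl h0
      · exact Or.inr (h2 i j g h0)
    · rw [stab_eq, hyperbolic_eq, sym_eq, sym_eq]
      refine Pool.Agent.N510.CT.normLE_of_dom _ _ (fun i j g => ?_) _ h3
      refine le_of_eq ?_
      rw [szm, Matrix.map_apply, coeff_sz]
      exact Int.abs_eq_natAbs _

end Pool.Agent.Results.MP_c13a79_gt.DistanceToHyperbolic
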