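import Pool.Agent.J6H6.DF.FinQ

/-!
# MP_c13a79_gt: positive forms which are extended from the integers because of one finite quotient

`G` is a torsion-free group (for example a Poincare duality group), `R = ℤG` with the involution
`g ↦ g⁻¹`, and `A` is the matrix of a positive nonsingular hermitian form on `R ^ n`: the coefficient of
`1` of `x A x*` is positive for all `x ≠ 0`. There is a finite set `F` of nontrivial elements of `G` such
that the form is isometric to its augmentation, extended from `ℤ` to `R`, as soon as for one homomorphism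
`π : G → Q` which is nontrivial on the elements of `F` the form `π A` over `ℤQ` is positive and generated
by vectors of norm at most `2`. If `G` is residually finite then `Q` can be finite, and this is a
condition on a lattice of finite rank.
-/

set_option autoImplicit false

namespace Pool.Agent.Results.MP_c13a79_gt.FiniteQuotients

open Pool.Agent.J6H6.DF (bar herm adj ext aug augm)

/-- `G` is torsion-free. -/
def TorsionFree (G : Type) [Group G] : Prop := ∀ (g : G) (k : ℕ), 1 ≤ k → g ^ k = 1 → g = 1

section defs

variable {G : Type} [Group G] {n : ℕ}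

/-- The norm of a vector: the coefficient of `1` of `x A x*`. -/
noncomputable def norm (A : Matrix (Fin n) (Fin n) (MonoidAlgebra ℤ G))
    (x : Fin n → MonoidAlgebra ℤ G) : ℤ := (herm A x x).coeff 1

/-- All nonzero vectors have positive norm. -/
def Positive (A : Matrix (Fin n) (Fin n) (MonoidAlgebra ℤ G)) : Prop :=
  ∀ x, x ≠ 0 → 0 < norm A x

/-- The abelian group of all vectors is generated by the vectors of norm at most `2`. -/
def GeneratedByNormTwo (A : Matrix (Fin n) (Fin n) (MonoidAlgebra ℤ G)) : Prop :=
  AddSubgroup.closure {x | norm A x ≤ 2} = ⊤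

/-- The matrix over `ℤQ` obtained by applying a homomorphism `π : G → Q` to the entries. -/
noncomputable def push {Q : Type} [Group Q] (π : G →* Q)
    (A : Matrix (Fin n) (Fin n) (MonoidAlgebra ℤ G)) : Matrix (Fin n) (Fin n) (MonoidAlgebra ℤ Q) :=
  A.map (MonoidAlgebra.mapDomainRingHom ℤ π)

end defs

/-- One sufficiently large quotient suffices. -/
theorem result (G : Type) [Group G] (tf : TorsionFree G) (n : ℕ)
    (A : Matrix (Fin n) (Fin n) (MonoidAlgebra ℤ G)) (hermitian : adj A = A)
    (nonsingular : IsUnit A) (positive : Positive A) :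
    ∃ F : Finset G, 1 ∉ F ∧ ∀ (Q : Type) [Group Q] (π : G →* Q), (∀ g ∈ F, π g ≠ 1) →
      Positive (push π A) → GeneratedByNormTwo (push π A) →
      ∃ S : (Matrix (Fin n) (Fin n) (MonoidAlgebra ℤ G))ˣ,
        S.1 * A * adj S.1 = ext (augm A) ∧
        ∀ B, B + adj B = A → ∃ P, S.1 * B * adj S.1 = ext (augm B) + (P - adj P) := by
  obtain ⟨F, hF1, hF⟩ := Pool.Agent.J6H6.DF.quotient_gen A hermitian nonsingular positive
  refine ⟨F, hF1, fun Q _ π hπ hp hg => ?_⟩
  obtain ⟨S, hS⟩ := Pool.Agent.J6H6.DF.main_matrix tf A hermitian nonsingular positive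
    (hF Q π hπ hp hg)
  refine ⟨S, hS, fun B hB => ?_⟩
  subst hB
  exact Pool.Agent.J6H6.DF.main_quad tf B S hS

end Pool.Agent.Results.MP_c13a79_gt.FiniteQuotients
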